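import Pool.Agent.Lib.MP_85963d_gt.Interfaces

/-!
# ENER: the energy estimate (4.4)
-/

set_option autoImplicit false

open MeasureTheory Set Filter Topology Quaternion
open scoped Real ContDiff

namespace Pool.Agent.MP85963d.H46

open SF

theorem nrm_add_le (F G : SF) : nrm (F + G : SF) ≤ nrm F + nrm G := by
  have h1 : nrm (F + G : SF) ^ 2 = nrm F ^ 2 + 2 * ip F G + nrm G ^ 2 := by
    rw [nrm_sq', nrm_sq', nrm_sq', ip_add_left, ip_add_right, ip_add_right, ip_comm G F]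
    ring
  have h2 : ip F G ≤ nrm F * nrm G := (le_abs_self _).trans (abs_ip_le F.continuousOn G.continuousOn)
  have h3 := nrm_nonneg F
  have h4 := nrm_nonneg G
  have h5 : nrm (F + G : SF) ^ 2 ≤ (nrm F + nrm G) ^ 2 := by
    rw [h1]; nlinarith
  exact (sq_le_sq₀ (nrm_nonneg _) (by positivity)).1 h5

theorem nrm_neg (F : SF) : nrm (-F : SF) = nrm F := by
  have h : nrm (-F : SF) ^ 2 = nrm F ^ 2 := by
    rw [nrm_sq', nrm_sq', ip_neg_left, ip_neg_right, neg_neg]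
  exact (pow_left_inj₀ (nrm_nonneg _) (nrm_nonneg _) two_ne_zero).1 h

theorem word_neg (l : List (Fin 6)) (F : SF) : word l (-F) = -(word l F) := by
  induction l with
  | nil => rfl
  | cons i l ih =>
    have e : ∀ G : SF, word (i :: l) G = Dlet i (word l G) := fun G => rfl
    rw [e, e, ih, map_neg]

theorem ener_neg (y : SF) : ener (-y) = ener y := by
  rw [ener, map_neg, map_neg, nrm_neg, nrm_neg]; rfl

theorem nrm_Lap_le (y : SF) {M : ℝ}
    (hM : ∀ l : List (Fin 6), l.length ≤ 3 → nrm (word l y) ≤ M) : nrm (Lap y) ≤ 3 * M := by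
  have h0 := hM [3, 3] (by simp)
  have h1 := hM [4, 4] (by simp)
  have h2 := hM [5, 5] (by simp)
  have e : Lap y = word [3, 3] y + word [4, 4] y + word [5, 5] y := Lap_eq y
  rw [e]
  refine (nrm_add_le _ _).trans ?_
  have := nrm_add_le (word [3, 3] y) (word [4, 4] y)
  linarith

theorem nrm_DZ_Lap_le (y : SF) {M : ℝ}
    (hM : ∀ l : List (Fin 6), l.length ≤ 3 → nrm (word l y) ≤ M) (a : Fin 3) :
    nrm (DZ a (Lap y)) ≤ 3 * M := by
  obtain ⟨i, hi⟩ : ∃ i : Fin 6, Dlet i = DZ a := by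
    fin_cases a
    · exact ⟨3, rfl⟩
    · exact ⟨4, rfl⟩
    · exact ⟨5, rfl⟩
  have h0 := hM [i, 3, 3] (by simp)
  have h1 := hM [i, 4, 4] (by simp)
  have h2 := hM [i, 5, 5] (by simp)
  have e : DZ a (Lap y) = word [i, 3, 3] y + word [i, 4, 4] y + word [i, 5, 5] y := by
    rw [Lap_eq, map_add, map_add, ← hi]
    rfl
  rw [e]
  refine (nrm_add_le _ _).trans ?_
  have := nrm_add_le (word [i, 3, 3] y) (word [i, 4, 4] y)
  linarith

/-- real inequality at the end of the proof -/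
theorem final_ineq {c K δ C₃ N m R : ℝ} (hc : 0 < c) (hK : 0 < K) (hδ : 0 < δ) (hδ1 : δ ≤ 1)
    (hδK : 12 * (K * δ) ≤ c) (hC₃ : 0 ≤ C₃) (hN : 0 ≤ N) (hm : 0 ≤ m)
    (hR : R = (K * C₃ + 2 * K * C₃ ^ 2) / (c / 2) + 1)
    (h : (3 / 4) * c * N ^ 2 ≤ K * ((δ * N + C₃ * m) * N + (δ * N + C₃ * m) ^ 2)) : N ≤ R * m := by
  have hd2 : δ ^ 2 ≤ δ := by nlinarith
  have h1 : (c / 2) * N ^ 2 ≤ K * C₃ * (m * N) + 2 * K * C₃ ^ 2 * m ^ 2 := by
    have e1 : (δ * N + C₃ * m) ^ 2 ≤ 2 * δ * N ^ 2 + 2 * C₃ ^ 2 * m ^ 2 := by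
      have : 0 ≤ (δ * N - C₃ * m) ^ 2 := sq_nonneg _
      nlinarith [mul_le_mul_of_nonneg_right hd2 (sq_nonneg N)]
    have e2 : K * ((δ * N + C₃ * m) * N + (δ * N + C₃ * m) ^ 2)
        ≤ K * ((δ * N + C₃ * m) * N + (2 * δ * N ^ 2 + 2 * C₃ ^ 2 * m ^ 2)) :=
      mul_le_mul_of_nonneg_left (by linarith) hK.le
    have e3 : 3 * (K * δ) * N ^ 2 ≤ (c / 4) * N ^ 2 :=
      mul_le_mul_of_nonneg_right (by linarith) (sq_nonneg N)
    nlinarith
  by_contra hlt
  rw [not_le] at hlt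
  set b := K * C₃ + 2 * K * C₃ ^ 2 with hb
  have hb0 : 0 ≤ b := by positivity
  have hR1 : 1 ≤ R := by
    rw [hR]
    have : 0 ≤ b / (c / 2) := by positivity
    linarith
  have hmN : m ≤ N := by nlinarith
  have hNpos : 0 < N := by
    have : 0 ≤ R * m := by positivity
    linarith
  have h2 : (c / 2) * N ^ 2 ≤ b * (m * N) := by
    have e4 : 2 * K * C₃ ^ 2 * m ^ 2 ≤ 2 * K * C₃ ^ 2 * (m * N) := by
      apply mul_le_mul_of_nonneg_left _ (by positivity)
      nlinarith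
    calc _ ≤ K * C₃ * (m * N) + 2 * K * C₃ ^ 2 * m ^ 2 := h1
      _ ≤ K * C₃ * (m * N) + 2 * K * C₃ ^ 2 * (m * N) := by linarith
      _ = b * (m * N) := by rw [hb]; ring
  have h3 : (c / 2) * N ≤ b * m := by
    have : ((c / 2) * N) * N ≤ (b * m) * N := by nlinarith
    exact le_of_mul_le_mul_right this hNpos
  have h4 : (c / 2) * (R * m) = b * m + (c / 2) * m := by
    rw [hR]; field_simp
  have h5 : (c / 2) * (R * m) < (c / 2) * N := by
    apply mul_lt_mul_of_pos_left hlt (by positivity)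
  have h6 : 0 ≤ (c / 2) * m := by positivity
  linarith

theorem ener_of (h1 : Ener1Statement) (hG : GardStatement) (hC : CasFacts) (hN : NormFacts)
    (hP : PsiFacts) (hF : FamFacts) (hW : WSFacts) : EnerStatement := by
  intro p₀ p₁ hp₀ hp₁
  obtain ⟨ε₁, hε₁, C₁, hC₁⟩ := h1 p₀ p₁ hp₀ hp₁
  obtain ⟨c₀, hc₀, hlow⟩ := hF.low p₀ p₁ hp₀ hp₁
  obtain ⟨B, hB⟩ := hF.bd p₀ p₁ hp₀ hp₁ 4
  obtain ⟨c, hc, C₂, hgard⟩ := hG c₀ B hc₀
  set K : ℝ := 63 * |C₂| + |C₁| + 1 with hK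
  have hK0 : 0 < K := by positivity
  set δ : ℝ := min 1 (c / (12 * K)) with hδ
  have hδ0 : 0 < δ := by rw [hδ]; positivity
  have hδ1 : δ ≤ 1 := min_le_left _ _
  have hδK : 12 * (K * δ) ≤ c := by
    have : δ ≤ c / (12 * K) := min_le_right _ _
    have h2 : 12 * K * δ ≤ 12 * K * (c / (12 * K)) := mul_le_mul_of_nonneg_left this (by positivity)
    have h3 : 12 * K * (c / (12 * K)) = c := by field_simp
    linarith
  obtain ⟨C₃, hC₃⟩ := hN.interp δ hδ0
  set R : ℝ := (K * |C₃| + 2 * K * |C₃| ^ 2) / (c / 2) + 1 with hR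
  refine ⟨min ε₁ (c / (4 * K)), by positivity, R + 1, ?_⟩
  intro s hs n y hy hε hyp
  set P : SF := seg p₀ p₁ s with hPdef
  set N : ℝ := nrm (Lap (Lap y)) with hNdef
  set m : ℝ := nrm y with hmdef
  have hN0 : 0 ≤ N := nrm_nonneg _
  have hm0 : 0 ≤ m := nrm_nonneg _
  set M : ℝ := δ * N + |C₃| * m with hM
  have hM0 : 0 ≤ M := by positivity
  have hword : ∀ l : List (Fin 6), l.length ≤ 3 → nrm (word l y) ≤ M := by
    intro l hl
    have := hC₃ y l hl
    have h2 : C₃ * m ≤ |C₃| * m := mul_le_mul_of_nonneg_right (le_abs_self _) hm0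
    linarith
  have hword' : ∀ l : List (Fin 6), l.length ≤ 3 → nrm (word l (-y)) ≤ M := by
    intro l hl
    rw [word_neg, nrm_neg]; exact hword l hl
  have hε1 : ener y ≤ ε₁ := hε.trans (min_le_left _ _)
  have hε2 : ener y ≤ c / (4 * K) := hε.trans (min_le_right _ _)
  have hε1' : ener (-y) ≤ ε₁ := by rw [ener_neg]; exact hε1
  -- the test function
  set f : SF := Lap (Lap y) with hf
  have hLy : Lap y ∈ UN n := hP.lap_mem n y hy
  have hfU : f ∈ UN n := hP.lap_mem n _ hLy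
  have e1 := hC₁ s hs n y hy hε1 M hword f hfU
  have e2 := hC₁ s hs n (-y) ((UN n).neg_mem hy) hε1' M hword' f hfU
  -- the hypothesis
  have hz : ip (Lap (Lap (LgS (P + y) - LgS (P - y)))) (psi f) = 0 := by
    rw [hC.symm, hC.symm]
    have hm1 : Lap (Lap (psi f)) = psi (Lap (Lap f)) := by
      rw [hP.lap n _ (hP.lap_mem n _ hfU), hP.lap n _ hfU]
    rw [hm1]
    exact hyp _ (hP.mem n _ (hP.lap_mem n _ (hP.lap_mem n _ hfU)))
  have hsplit : Lap (Lap (LgS (P + y) - LgS (P - y)))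
      = Lap (Lap (LgS (P + y) - LgS P)) + -(Lap (Lap (LgS (P + -y) - LgS P))) := by
    rw [← map_neg, ← map_neg, ← map_add, ← map_add]
    congr 2
    rw [sub_eq_add_neg P y]; abel
  rw [hsplit, ip_add_left, ip_neg_left] at hz
  have hbil : Bil (wS P) (Lap (Lap (-y))) f = - Bil (wS P) f f := by
    rw [map_neg, map_neg, ← hf]
    simp only [Bil, SF.neg_apply]
    rw [← integral_neg]
    congr 1; funext x; ring
  rw [hbil, ener_neg] at e2
  rw [map_neg, map_neg, nrm_neg] at e2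
  rw [← hf, ← hNdef] at e1 e2
  have hL : |Bil (wS P) f f| ≤ |C₁| * (ener y * N + M) * N := by
    have hen : 0 ≤ ener y := add_nonneg (nrm_nonneg _) (nrm_nonneg _)
    have h3 : C₁ * (ener y * N + M) * N ≤ |C₁| * (ener y * N + M) * N := by
      have : 0 ≤ (ener y * N + M) * N := by positivity
      nlinarith [mul_le_mul_of_nonneg_right (le_abs_self C₁) this]
    rw [abs_le] at e1 e2 ⊢
    constructor <;> linarith [e1.1, e1.2, e2.1, e2.2]
  -- Garding
  have hg := hgard (wS P) (hW.wS_klein _ (hW.seg_adm p₀ p₁ hp₀ hp₁ s hs))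
    (fun x hx => (hlow s hs x hx).2.2) (hB s hs).2 n (Lap y) hLy
  have hbil2 : ∫ x in shell, (wS P) x * (Lap (Lap y)) x * (Lap (psi (Lap y))) x
      = Bil (wS P) f f := by
    rw [Bil, hf, hP.lap n _ hLy]
  rw [hbil2, ← hf, ← hNdef] at hg
  -- the lower order terms
  have hn2 : nrm (Lap y) ≤ 3 * M := nrm_Lap_le y hword
  have hn1 : nrm1 (Lap y) ≤ 6 * M := by
    have h3 := hN.nrm1_sq (Lap y)
    rw [Fin.sum_univ_three] at h3
    have a0 := nrm_DZ_Lap_le y hword 0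
    have a1 := nrm_DZ_Lap_le y hword 1
    have a2 := nrm_DZ_Lap_le y hword 2
    have b0 := nrm_nonneg (DZ 0 (Lap y))
    have b1 := nrm_nonneg (DZ 1 (Lap y))
    have b2 := nrm_nonneg (DZ 2 (Lap y))
    have h4 : nrm1 (Lap y) ^ 2 ≤ (6 * M) ^ 2 := by
      rw [h3]; nlinarith
    have h5 : 0 ≤ nrm1 (Lap y) := Real.sqrt_nonneg _
    exact (sq_le_sq₀ h5 (by positivity)).1 h4
  have hn1' : 0 ≤ nrm1 (Lap y) := Real.sqrt_nonneg _
  have hn2' : 0 ≤ nrm (Lap y) := nrm_nonneg _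
  have hlowterm : C₂ * (N + nrm1 (Lap y)) * (nrm1 (Lap y) + nrm (Lap y))
      ≤ |C₂| * ((N + 6 * M) * (9 * M)) := by
    have h3 : (N + nrm1 (Lap y)) * (nrm1 (Lap y) + nrm (Lap y)) ≤ (N + 6 * M) * (9 * M) := by
      apply mul_le_mul <;> first | linarith | positivity
    have h4 : 0 ≤ (N + nrm1 (Lap y)) * (nrm1 (Lap y) + nrm (Lap y)) := by positivity
    calc _ = C₂ * ((N + nrm1 (Lap y)) * (nrm1 (Lap y) + nrm (Lap y))) := by ring
      _ ≤ |C₂| * ((N + nrm1 (Lap y)) * (nrm1 (Lap y) + nrm (Lap y))) :=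
        mul_le_mul_of_nonneg_right (le_abs_self _) h4
      _ ≤ _ := mul_le_mul_of_nonneg_left h3 (abs_nonneg _)
  have hBb := (abs_le.1 hL).2
  have hen2 : |C₁| * (ener y * N + M) * N ≤ (c / 4) * N ^ 2 + |C₁| * M * N := by
    have h3 : |C₁| * ener y ≤ c / 4 := by
      have h4 : K * ener y ≤ c / 4 := by
        calc K * ener y ≤ K * (c / (4 * K)) := mul_le_mul_of_nonneg_left hε2 hK0.le
          _ = c / 4 := by field_simp
      have hen : 0 ≤ ener y := add_nonneg (nrm_nonneg _) (nrm_nonneg _)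
      have h5 : |C₁| * ener y ≤ K * ener y := by
        apply mul_le_mul_of_nonneg_right _ hen
        rw [hK]; have := abs_nonneg C₂; linarith
      linarith
    nlinarith [mul_le_mul_of_nonneg_right h3 (sq_nonneg N)]
  have hfin : (3 / 4) * c * N ^ 2 ≤ K * (M * N + M ^ 2) := by
    have h3 : c * N ^ 2 ≤ |C₂| * ((N + 6 * M) * (9 * M)) + ((c / 4) * N ^ 2 + |C₁| * M * N) := by
      linarith
    have h4 : |C₂| * ((N + 6 * M) * (9 * M)) + |C₁| * M * N ≤ K * (M * N + M ^ 2) := by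
      have hMN : 0 ≤ M * N := by positivity
      have hMM : 0 ≤ M ^ 2 := by positivity
      have a1 := abs_nonneg C₁
      have a2 := abs_nonneg C₂
      rw [hK]
      nlinarith [mul_nonneg a2 hMN, mul_nonneg a2 hMM, mul_nonneg a1 hMM]
    linarith
  have hres : N ≤ R * m := final_ineq hc hK0 hδ0 hδ1 hδK (abs_nonneg C₃) hN0 hm0 hR hfin
  have : ener y = N + m := rfl
  rw [this]; linarith

end Pool.Agent.MP85963d.H46
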