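import Pool.Agent.Lib.MP_85963d_gt.Interfaces

/-!
# Left compositions, rotations about the third axis
-/

set_option autoImplicit false

open MeasureTheory Set Filter Topology Quaternion
open scoped Real ContDiff

namespace Pool.Agent.MP85963d.H46

open SF

/-- composition with left multiplication by `ρ ≠ 0` -/
noncomputable def lc (ρ : ℍ) (h : ρ ≠ 0) (F : SF) : SF :=
  SF.of (fun x => F (ρ * x))
    (F.smooth.comp (by fun_prop) fun x hx => mul_ne_zero h hx)
    (fun r x hr _ => by rw [mul_smul_comm]; exact F.hom hr _)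

theorem lc_apply {ρ : ℍ} (h : ρ ≠ 0) (F : SF) (x : ℍ) : (lc ρ h F) x = F (ρ * x) := by
  by_cases hx : x = 0
  · subst hx; rw [SF.map_zero', mul_zero, SF.map_zero']
  · exact SF.of_apply hx

theorem lc_add {ρ : ℍ} (h : ρ ≠ 0) (F G : SF) : lc ρ h (F + G) = lc ρ h F + lc ρ h G := by
  apply SF.ext'; intro x _
  simp only [lc_apply, SF.add_apply]

theorem lc_smul {ρ : ℍ} (h : ρ ≠ 0) (c : ℝ) (F : SF) : lc ρ h (c • F) = c • lc ρ h F := by
  apply SF.ext'; intro x _
  simp only [lc_apply, SF.smul_apply]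

theorem fderiv_lc {ρ : ℍ} (h : ρ ≠ 0) (F : SF) {x : ℍ} (hx : x ≠ 0) (v : ℍ) :
    fderiv ℝ (lc ρ h F) x v = fderiv ℝ F (ρ * x) (ρ * v) := by
  have e : ((lc ρ h F : SF) : ℍ → ℝ) = (F : ℍ → ℝ) ∘ (SF.lm ρ) := by
    funext y; rw [lc_apply]; rfl
  have h1 : HasFDerivAt F (fderiv ℝ F (SF.lm ρ x)) (SF.lm ρ x) :=
    F.hasFDerivAt (by simpa using mul_ne_zero h hx)
  have h2 := h1.comp x (SF.lm ρ).hasFDerivAt
  rw [e, h2.fderiv]
  rfl

theorem R_lc {ρ : ℍ} (h : ρ ≠ 0) (a : ℍ) (F : SF) : R a (lc ρ h F) = lc ρ h (R a F) := by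
  apply SF.ext'; intro x hx
  rw [SF.R_apply, fderiv_lc h F hx, lc_apply, SF.R_apply, mul_assoc]

theorem DX_lc {ρ : ℍ} (h : ρ ≠ 0) (F : SF) : DX (lc ρ h F) = lc ρ h (DX F) := R_lc h _ F
theorem DV_lc {ρ : ℍ} (h : ρ ≠ 0) (F : SF) : DV (lc ρ h F) = lc ρ h (DV F) := R_lc h _ F
theorem DH_lc {ρ : ℍ} (h : ρ ≠ 0) (F : SF) : DH (lc ρ h F) = lc ρ h (DH F) := R_lc h _ F

theorem Lap_lc (hC : CasFacts) {ρ : ℍ} (h : ρ ≠ 0) (F : SF) :
    Lap (lc ρ h F) = lc ρ h (Lap F) := by
  rw [hC.right, hC.right]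
  simp only [DX_lc, DV_lc, DH_lc, lc_add]

/-- `Z a` and left compositions -/
theorem Z_lc {ρ : ℍ} (h : ρ ≠ 0) (a b : ℍ) (hab : ρ * a = b * ρ) (F : SF) :
    Z a (lc ρ h F) = lc ρ h (Z b F) := by
  apply SF.ext'; intro x hx
  rw [SF.Z_apply, fderiv_lc h F hx, lc_apply, SF.Z_apply, ← mul_assoc, hab, mul_assoc]

theorem qJ_ne : qJ ≠ 0 := by
  intro h
  have := isImUnit_J.norm_eq
  simp [h] at this

theorem rotK_ne (t : ℝ) : rot qK t ≠ 0 := rot_ne_zero isImUnit_K t

theorem DZ2_lcK (t : ℝ) (F : SF) : DZ 2 (lc (rot qK t) (rotK_ne t) F)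
    = lc (rot qK t) (rotK_ne t) (DZ 2 F) := by
  rw [DZ]
  apply Z_lc
  simp only [qU, Matrix.cons_val_two, Matrix.tail_cons, Matrix.head_cons]
  rw [mul_smul_comm, smul_mul_assoc, rot_mul_comm]

theorem DZ2_lcJ (F : SF) : DZ 2 (lc qJ qJ_ne F) = lc qJ qJ_ne (-(DZ 2 F)) := by
  rw [DZ, ← Z_neg]
  apply Z_lc
  simp only [qU, Matrix.cons_val_two, Matrix.tail_cons, Matrix.head_cons]
  rw [mul_smul_comm, qJ_mul_qK, neg_mul, smul_mul_assoc, qK_mul_qJ, smul_neg, neg_neg]

/-- `T = Z_k²` -/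
theorem T_lcJ (F : SF) : DZ 2 (DZ 2 (lc qJ qJ_ne F)) = lc qJ qJ_ne (DZ 2 (DZ 2 F)) := by
  rw [DZ2_lcJ, DZ2_lcJ, map_neg, neg_neg]

theorem T_lcK (t : ℝ) (F : SF) : DZ 2 (DZ 2 (lc (rot qK t) (rotK_ne t) F))
    = lc (rot qK t) (rotK_ne t) (DZ 2 (DZ 2 F)) := by
  rw [DZ2_lcK, DZ2_lcK]

theorem rotK_J (t : ℝ) : rot qK t * qJ = qJ * rot qK (-t) := by
  simp only [rot, add_mul, mul_add, smul_mul_assoc, mul_smul_comm, one_mul, mul_one, qK_mul_qJ,
    qJ_mul_qK, neg_div, Real.cos_neg, Real.sin_neg]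
  module

theorem rotK_add (s t : ℝ) : rot qK (s + t) = rot qK s * rot qK t := rot_add isImUnit_K s t

/-- second derivative along the rotations about the third axis -/
theorem hasDerivAt_rot2 (F : SF) {x : ℍ} (hx : x ≠ 0) (t : ℝ) :
    HasDerivAt (fun t => F (rot qK t * x)) ((DZ 2 F) (rot qK t * x)) t :=
  hasDerivAt_DZ 2 F hx t

/-- uniqueness for `h'' = -κ² h` in symmetric form -/
theorem harm_symm {h h' : ℝ → ℝ} {κ : ℝ} (hκ : κ ≠ 0) (h1 : ∀ t, HasDerivAt h (h' t) t)
    (h2 : ∀ t, HasDerivAt h' (-(κ ^ 2) * h t) t) (t : ℝ) :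
    h t + h (-t) = 2 * Real.cos (κ * t) * h 0 := by
  -- energy
  set u : ℝ → ℝ := fun t => h t + h (-t) - 2 * Real.cos (κ * t) * h 0 with hu
  set u' : ℝ → ℝ := fun t => h' t - h' (-t) + 2 * κ * Real.sin (κ * t) * h 0 with hu'
  have d1 : ∀ t, HasDerivAt u (u' t) t := by
    intro t
    have e1 : HasDerivAt (fun t => h (-t)) (h' (-t) * (-1)) t :=
      (h1 (-t)).comp t (hasDerivAt_neg t)
    have e2 : HasDerivAt (fun t => Real.cos (κ * t)) (-Real.sin (κ * t) * κ) t := by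
      have := ((hasDerivAt_id t).const_mul κ).cos
      simpa using this
    have e3 := ((h1 t).add e1).sub ((e2.const_mul 2).mul_const (h 0))
    refine e3.congr_deriv ?_
    simp only [hu']; ring
  have d2 : ∀ t, HasDerivAt u' (-(κ ^ 2) * u t) t := by
    intro t
    have e1 : HasDerivAt (fun t => h' (-t)) (-(κ ^ 2) * h (-t) * (-1)) t :=
      (h2 (-t)).comp t (hasDerivAt_neg t)
    have e2 : HasDerivAt (fun t => Real.sin (κ * t)) (Real.cos (κ * t) * κ) t := by
      have := ((hasDerivAt_id t).const_mul κ).sin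
      simpa using this
    have e3 := ((h2 t).sub e1).add ((e2.const_mul (2 * κ)).mul_const (h 0))
    refine e3.congr_deriv ?_
    simp only [hu]; ring
  have d3 : ∀ t, HasDerivAt (fun t => u' t ^ 2 + κ ^ 2 * u t ^ 2) 0 t := by
    intro t
    have e := ((d2 t).pow 2).add (((d1 t).pow 2).const_mul (κ ^ 2))
    refine e.congr_deriv ?_
    simp only [Nat.cast_ofNat, Nat.add_one_sub_one, pow_one]; ring
  have hconst : ∀ t, u' t ^ 2 + κ ^ 2 * u t ^ 2 = u' 0 ^ 2 + κ ^ 2 * u 0 ^ 2 := by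
    intro t
    have hd : Differentiable ℝ (fun t => u' t ^ 2 + κ ^ 2 * u t ^ 2) :=
      fun t => (d3 t).differentiableAt
    exact is_const_of_deriv_eq_zero hd (fun t => (d3 t).deriv) t 0
  have h00 : u 0 = 0 := by simp [hu]; ring
  have h01 : u' 0 = 0 := by simp [hu']
  have h3 := hconst t
  rw [h00, h01] at h3
  have h4 : u t ^ 2 = 0 := by
    have hk : 0 < κ ^ 2 := by positivity
    nlinarith [sq_nonneg (u' t), sq_nonneg (u t)]
  have h5 : u t = 0 := by simpa using h4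
  simp only [hu] at h5
  linarith

/-- eigenfunctions of `Z_k²` are modes -/
theorem eigen_rot {F : SF} {κ : ℝ} (hκ : κ ≠ 0) (hF : DZ 2 (DZ 2 F) = -(κ ^ 2) • F) (α : ℝ)
    (x : ℍ) : F (rot qK α * x) + F (rot qK (-α) * x) = 2 * Real.cos (κ * α) * F x := by
  by_cases hx : x = 0
  · subst hx; simp [SF.map_zero']
  have h2 : ∀ t, HasDerivAt (fun t => (DZ 2 F) (rot qK t * x))
      (-(κ ^ 2) * F (rot qK t * x)) t := by
    intro t
    have := hasDerivAt_rot2 (DZ 2 F) hx t
    rwa [hF, SF.smul_apply] at this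
  have := harm_symm hκ (fun t => hasDerivAt_rot2 F hx t) h2 α
  simpa [rot_zero] using this

/-- modes are eigenfunctions of `Z_k²` -/
theorem zz_of_rot {F : SF} {κ : ℝ}
    (hF : ∀ (α : ℝ) (x : ℍ), F (rot qK α * x) + F (rot qK (-α) * x) = 2 * Real.cos (κ * α) * F x) :
    DZ 2 (DZ 2 F) = -(κ ^ 2) • F := by
  apply SF.ext'; intro x hx
  rw [SF.smul_apply]
  have d1 : ∀ t, HasDerivAt (fun t => F (rot qK t * x) + F (rot qK (-t) * x))
      ((DZ 2 F) (rot qK t * x) + (DZ 2 F) (rot qK (-t) * x) * (-1)) t := fun t =>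
    (hasDerivAt_rot2 F hx t).add ((hasDerivAt_rot2 F hx (-t)).comp t (hasDerivAt_neg t))
  have d2 : ∀ t, HasDerivAt (fun t => F (rot qK t * x) + F (rot qK (-t) * x))
      (2 * (-Real.sin (κ * t) * κ) * F x) t := by
    intro t
    have e : (fun t => F (rot qK t * x) + F (rot qK (-t) * x))
        = fun t => 2 * Real.cos (κ * t) * F x := by
      funext t; exact hF t x
    rw [e]
    have := ((hasDerivAt_id t).const_mul κ).cos
    simp only [id_eq, mul_one] at this
    exact (this.const_mul 2).mul_const (F x)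
  have e3 : ∀ t, (DZ 2 F) (rot qK t * x) + (DZ 2 F) (rot qK (-t) * x) * (-1)
      = 2 * (-Real.sin (κ * t) * κ) * F x := fun t => (d1 t).unique (d2 t)
  have d4 : HasDerivAt (fun t => (DZ 2 F) (rot qK t * x) + (DZ 2 F) (rot qK (-t) * x) * (-1))
      ((DZ 2 (DZ 2 F)) (rot qK 0 * x) + (DZ 2 (DZ 2 F)) (rot qK (-0) * x) * (-1) * (-1)) 0 :=
    (hasDerivAt_rot2 (DZ 2 F) hx 0).add
      (((hasDerivAt_rot2 (DZ 2 F) hx (-0)).comp 0 (hasDerivAt_neg 0)).mul_const (-1))
  have d5 : HasDerivAt (fun t => (DZ 2 F) (rot qK t * x) + (DZ 2 F) (rot qK (-t) * x) * (-1))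
      (2 * (-(Real.cos (κ * 0) * κ) * κ) * F x) 0 := by
    rw [funext e3]
    have := ((hasDerivAt_id (0:ℝ)).const_mul κ).sin
    simp only [id_eq, mul_one] at this
    exact ((this.neg.mul_const κ).const_mul 2).mul_const (F x)
  have h := d4.unique d5
  simp only [neg_zero, rot_zero, one_mul, mul_zero, Real.cos_zero] at h
  linarith

/-- skewness of `Z_k` with an invariant continuous weight -/
theorem integral_inv_DZ2 {w : ℍ → ℝ} (hw : Cts w) (hr : RotInv w) (F : SF) :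
    ∫ x in shell, w x * (DZ 2 F) x = 0 := by
  set G : SF := DZ 2 F with hG
  obtain ⟨M, hM⟩ := isCompact_shell.exists_bound_of_continuousOn
    ((hw.cont.mul G.continuousOn).mono shell_subset)
  have hfin : IsFiniteMeasure (volume.restrict shell) :=
    ⟨by simpa using isCompact_shell.measure_lt_top⟩
  have hcont : ∀ (F : SF) (t : ℝ), ContinuousOn (fun x => w x * F (rot qK t * x)) shell := by
    intro F t
    apply (hw.cont.mono shell_subset).mul
    apply F.continuousOn.comp (by fun_prop)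
    intro x hx
    exact shell_subset ((lmul_mem_shell (norm_rot isImUnit_K t)).2 hx)
  have key := hasDerivAt_integral_of_dominated_loc_of_deriv_le
    (μ := volume.restrict shell) (F := fun t x => w x * F (rot qK t * x))
    (F' := fun t x => w x * G (rot qK t * x)) (x₀ := (0:ℝ)) (s := univ)
    (bound := fun _ => M) Filter.univ_mem
    (Eventually.of_forall fun t => (hcont F t).aestronglyMeasurable measurableSet_shell)
    ((hcont F 0).integrableOn_compact isCompact_shell)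
    ((hcont G 0).aestronglyMeasurable measurableSet_shell)
    (by
      rw [ae_restrict_iff' measurableSet_shell]
      refine Eventually.of_forall fun x hx t _ => ?_
      have h1 := hM (rot qK t * x) ((lmul_mem_shell (norm_rot isImUnit_K t)).2 hx)
      simp only [Pi.mul_apply] at h1
      rwa [hr.rot] at h1)
    (integrable_const M)
    (by
      rw [ae_restrict_iff' measurableSet_shell]
      exact Eventually.of_forall fun x hx t _ =>
        (hasDerivAt_rot2 F (ne_zero_of_mem_shell hx) t).const_mul (w x))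
  have hconst : (fun t => ∫ x in shell, w x * F (rot qK t * x)) = fun _ => ∫ x in shell, w x * F x := by
    funext t
    have := integral_shell_lmul (norm_rot isImUnit_K t) (fun x => w x * F x)
    simp only [hr.rot] at this
    exact this
  have h2 := key.2
  rw [hconst] at h2
  have h3 := h2.unique (hasDerivAt_const 0 _)
  simpa [rot_zero] using h3

theorem ip_inv_DZ2 {w : ℍ → ℝ} (hw : Cts w) (hr : RotInv w) (F G : SF) :
    ∫ x in shell, w x * F x * (DZ 2 G) x = - ∫ x in shell, w x * (DZ 2 F) x * G x := by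
  have h := integral_inv_DZ2 hw hr (F * G)
  have e : (fun x => w x * (DZ 2 (F * G)) x)
      = fun x => w x * F x * (DZ 2 G) x + w x * (DZ 2 F) x * G x := by
    funext x
    rw [Derivation.leibniz]
    simp only [add_apply, smul_eq_mul, mul_apply]
    ring
  rw [e, integral_add] at h
  · linarith
  · exact integrableOn_shell ((hw.cont.mul F.continuousOn).mul (DZ 2 G).continuousOn)
  · exact integrableOn_shell ((hw.cont.mul (DZ 2 F).continuousOn).mul G.continuousOn)

theorem ip_inv_T {w : ℍ → ℝ} (hw : Cts w) (hr : RotInv w) (F G : SF) :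
    ∫ x in shell, w x * F x * (DZ 2 (DZ 2 G)) x = ∫ x in shell, w x * (DZ 2 (DZ 2 F)) x * G x := by
  rw [ip_inv_DZ2 hw hr, ip_inv_DZ2 hw hr, neg_neg]

end Pool.Agent.MP85963d.H46
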