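import Pool.Agent.Lib.MP_85963d_gt.H46.LeftComp

/-!
# MODE: rotations about the third axis
-/

set_option autoImplicit false

open MeasureTheory Set Filter Topology Quaternion
open scoped Real ContDiff

namespace Pool.Agent.MP85963d.H46

open SF

theorem gen_surj {V : Type} [AddCommGroup V] [Module ℝ V] [FiniteDimensional ℝ V] (f : V →ₗ[ℝ] V)
    (h : ∀ v, f v = 0 → v = 0) (w : V) : ∃ v, f v = w := by
  have h1 : Function.Injective f := by
    rw [← LinearMap.ker_eq_bot, LinearMap.ker_eq_bot']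
    exact h
  exact (LinearMap.injective_iff_surjective.1 h1) w

theorem gen_decomp {V : Type} [AddCommGroup V] [Module ℝ V] [FiniteDimensional ℝ V]
    (f : V →ₗ[ℝ] V) (h : ∀ v, f (f v) = 0 → f v = 0) (w : V) :
    ∃ a b, f a = 0 ∧ a + f b = w := by
  have hdisj : Disjoint (LinearMap.ker f) (LinearMap.range f) := by
    rw [Submodule.disjoint_def]
    rintro x hx ⟨v, rfl⟩
    exact h v hx
  have htop : LinearMap.ker f ⊔ LinearMap.range f = ⊤ := by
    apply Submodule.eq_top_of_disjoint _ _ _ hdisj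
    rw [add_comm, LinearMap.finrank_range_add_finrank_ker]
  have hw : w ∈ LinearMap.ker f ⊔ LinearMap.range f := by
    rw [htop]; trivial
  obtain ⟨z, hz, _, ⟨v, rfl⟩, hzv⟩ := Submodule.mem_sup.1 hw
  exact ⟨z, v, hz, hzv⟩

theorem nrm_eq_zero_iff {F : SF} : ip F F = 0 → F = 0 := by
  intro h
  apply eq_zero_of_nrm
  have := nrm_sq' F
  rw [h] at this
  simpa using this

theorem ip_T (F G : SF) : ip (DZ 2 (DZ 2 F)) G = ip F (DZ 2 (DZ 2 G)) := by
  rw [ip_DZ, ip_DZ, neg_neg]

theorem UN_le_MN (n : ℕ) : UN n ≤ MN n := fun _ h => h.1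

theorem finite_UN (hM : MNFacts) (n : ℕ) : Module.Finite ℝ (UN n) := by
  have := hM.finite n
  exact Submodule.finiteDimensional_of_le (UN_le_MN n)

theorem lc_mem_UN (hM : MNFacts) {n : ℕ} {ρ : ℍ} (h : ρ ≠ 0) {y : SF} (hy : y ∈ UN n) :
    lc ρ h y ∈ UN n := by
  refine ⟨?_, ⟨fun x t => ?_, fun x => ?_⟩⟩
  · obtain ⟨G, hG, hG'⟩ := hM.lcomp n ρ y h hy.1
    have : lc ρ h y = G := by
      apply SF.ext'; intro x _; rw [lc_apply, hG']
    rw [this]; exact hG
  · rw [lc_apply, lc_apply, ← mul_assoc, hy.2.rotI]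
  · rw [lc_apply, lc_apply, ← mul_assoc, hy.2.mulK]

/-- the spectral decomposition for `Z_k² + k²` on `UN n` -/
theorem decomp (hM : MNFacts) (hP : PsiFacts) (n : ℕ) (c : ℝ) (y : SF) (hy : y ∈ UN n) :
    ∃ z ∈ UN n, ∃ v ∈ UN n, DZ 2 (DZ 2 z) = -c • z ∧ y = z + (DZ 2 (DZ 2 v) + c • v) := by
  have := finite_UN hM n
  let g : SF →ₗ[ℝ] SF := (DZ 2 : SF →ₗ[ℝ] SF) ∘ₗ (DZ 2 : SF →ₗ[ℝ] SF) + c • LinearMap.id
  have hg : ∀ F : SF, g F = DZ 2 (DZ 2 F) + c • F := fun F => rfl
  have hmem : ∀ F ∈ UN n, g F ∈ UN n := by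
    intro F hF
    rw [hg]
    exact (UN n).add_mem (hP.dz_mem n 2 _ (hP.dz_mem n 2 _ hF)) ((UN n).smul_mem _ hF)
  let f : UN n →ₗ[ℝ] UN n := g.restrict hmem
  have hf : ∀ F : UN n, ((f F : UN n) : SF) = DZ 2 (DZ 2 (F : SF)) + c • (F : SF) := fun F => rfl
  have hsymm : ∀ F G : UN n, ip ((f F : UN n) : SF) (G : SF) = ip (F : SF) ((f G : UN n) : SF) := by
    intro F G
    rw [hf, hf, ip_add_left, ip_add_right, ip_T, ip_smul_left, ip_smul_right]
  have hff : ∀ v : UN n, f (f v) = 0 → f v = 0 := by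
    intro v hx
    have h1 : ip ((f v : UN n) : SF) ((f v : UN n) : SF) = 0 := by
      rw [hsymm v (f v), hx]
      rw [ip_comm]
      simp [ip]
    have h2 := nrm_eq_zero_iff h1
    exact Subtype.ext h2
  obtain ⟨z, v, hz, hzv⟩ := gen_decomp (V := UN n) f hff ⟨y, hy⟩
  refine ⟨z, z.2, v, v.2, ?_, ?_⟩
  · have h3 := congrArg (Subtype.val) hz
    rw [hf] at h3
    have h4 : DZ 2 (DZ 2 (z : SF)) + c • (z : SF) = 0 := h3
    rw [neg_smul]
    exact eq_neg_of_add_eq_zero_left h4
  · have h5 := congrArg (Subtype.val) hzv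
    exact h5.symm

/-- the mode projection of `y` -/
theorem decomp_mode (hM : MNFacts) (hP : PsiFacts) (k n : ℕ) (hk : 1 ≤ k) (y : SF) (hy : y ∈ UN n) :
    ∃ z ∈ SNk k n, ∃ z' ∈ UN n, ∃ v ∈ UN n, z = (1 / 2 : ℝ) • (z' + lc qJ qJ_ne z') ∧
      y = z' + (DZ 2 (DZ 2 v) + ((k:ℝ) ^ 2) • v) ∧ DZ 2 (DZ 2 z') = -((k:ℝ) ^ 2) • z' := by
  obtain ⟨z', hz', v, hv, h1, h2⟩ := decomp hM hP n ((k:ℝ) ^ 2) y hy
  have hk0 : (k:ℝ) ≠ 0 := by positivity
  refine ⟨(1 / 2 : ℝ) • (z' + lc qJ qJ_ne z'), ?_, z', hz', v, hv, rfl, h2, h1⟩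
  refine ⟨(UN n).smul_mem _ ((UN n).add_mem hz' (lc_mem_UN hM _ hz')), ⟨fun α x => ?_, fun x => ?_⟩⟩
  · have e1 := eigen_rot hk0 h1 α x
    have h1' : DZ 2 (DZ 2 (lc qJ qJ_ne z')) = -((k:ℝ) ^ 2) • (lc qJ qJ_ne z') := by
      rw [T_lcJ, h1, lc_smul]
    have e2 := eigen_rot hk0 h1' α x
    simp only [SF.smul_apply, SF.add_apply]
    linear_combination (1 / 2) * e1 + (1 / 2) * e2
  · simp only [SF.smul_apply, SF.add_apply, lc_apply]
    rw [← mul_assoc, isImUnit_J.sq, neg_one_mul, z'.even]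
    ring

/-- pairing with functions of mode `k` only sees the projection -/
theorem pair_mode {w : ℍ → ℝ} (hw : Cts w) (hr : RotInv w) (k : ℕ) (f : SF) (hf : Mode k f)
    (v : SF) : ∫ x in shell, w x * f x * (DZ 2 (DZ 2 v) + ((k:ℝ) ^ 2) • v : SF) x = 0 := by
  have hff : DZ 2 (DZ 2 f) = -((k:ℝ) ^ 2) • f := zz_of_rot hf.rot
  have e : (fun x => w x * f x * (DZ 2 (DZ 2 v) + ((k:ℝ) ^ 2) • v : SF) x)
      = fun x => w x * f x * (DZ 2 (DZ 2 v)) x + (k:ℝ) ^ 2 * (w x * f x * v x) := by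
    funext x
    rw [SF.add_apply, SF.smul_apply]; ring
  rw [e, integral_add, integral_const_mul, ip_inv_T hw hr, hff]
  · have e2 : (fun x => w x * (-((k:ℝ) ^ 2) • f : SF) x * v x)
        = fun x => -((k:ℝ) ^ 2) * (w x * f x * v x) := by
      funext x
      rw [SF.smul_apply]; ring
    rw [e2, integral_const_mul]
    ring
  · exact integrableOn_shell ((hw.cont.mul f.continuousOn).mul (DZ 2 (DZ 2 v)).continuousOn)
  · exact (integrableOn_shell ((hw.cont.mul f.continuousOn).mul v.continuousOn)).const_mul _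

theorem norm_qJ : ‖qJ‖ = 1 := isImUnit_J.norm_eq

theorem pair_J {g : ℍ → ℝ} (hg : ∀ x : ℍ, g (qJ * x) = g x) (G : SF) :
    ∫ x in shell, g x * (lc qJ qJ_ne G) x = ∫ x in shell, g x * G x := by
  have := integral_shell_lmul norm_qJ (fun x => g x * G x)
  rw [← this]
  simp only [lc_apply, hg]

theorem psi_lc (hM : MNFacts) (hP : PsiFacts) {n : ℕ} {ρ : ℍ} (h : ρ ≠ 0) {y : SF}
    (hy : y ∈ UN n) : psi (lc ρ h y) = lc ρ h (psi y) := by
  apply SF.ext'; intro x _
  rw [lc_apply]
  exact hP.lcomp n ρ y (lc ρ h y) h hy (lc_mem_UN hM h hy) (fun x => lc_apply h y x) x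

theorem cts_one : Cts (fun _ : ℍ => (1:ℝ)) := ⟨continuousOn_const, fun _ _ _ _ => rfl⟩

theorem rotInv_const : RotInv (fun _ : ℍ => (1:ℝ)) := ⟨fun _ _ => rfl, fun _ => rfl⟩

/-- Pairing with `w f`, `f` of mode `k`, of `psi` of a function and of its projection -/
theorem pair_psi (hM : MNFacts) (hP : PsiFacts) {w : ℍ → ℝ} (hw : Cts w) (hr : RotInv w)
    {k n : ℕ} {f : SF} (hf : Mode k f) {y z z' v : SF} (hz' : z' ∈ UN n) (hv : v ∈ UN n)
    (hz : z = (1 / 2 : ℝ) • (z' + lc qJ qJ_ne z'))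
    (hy : y = z' + (DZ 2 (DZ 2 v) + ((k:ℝ) ^ 2) • v)) :
    ∫ x in shell, w x * f x * (psi y) x = ∫ x in shell, w x * f x * (psi z) x := by
  have hT : DZ 2 (DZ 2 v) ∈ UN n := hP.dz_mem n 2 _ (hP.dz_mem n 2 _ hv)
  have h1 : psi y = psi z' + (DZ 2 (DZ 2 (psi v)) + ((k:ℝ) ^ 2) • psi v) := by
    rw [hy, hP.add n _ _ hz' ((UN n).add_mem hT ((UN n).smul_mem _ hv)),
      hP.add n _ _ hT ((UN n).smul_mem _ hv), hP.smul n _ _ hv,
      hP.dz n 2 _ (hP.dz_mem n 2 _ hv), hP.dz n 2 _ hv]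
  have h2 : psi z = (1 / 2 : ℝ) • (psi z' + lc qJ qJ_ne (psi z')) := by
    rw [hz, hP.smul n _ _ ((UN n).add_mem hz' (lc_mem_UN hM _ hz')),
      hP.add n _ _ hz' (lc_mem_UN hM _ hz'), psi_lc hM hP _ hz']
  have c0 : ContinuousOn (fun x => w x * f x) {0}ᶜ := hw.cont.mul f.continuousOn
  have i1 : ∀ G : SF, IntegrableOn (fun x => w x * f x * G x) shell := fun G =>
    integrableOn_shell (c0.mul G.continuousOn)
  have h3 : ∫ x in shell, w x * f x * (psi y) x = ∫ x in shell, w x * f x * (psi z') x := by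
    rw [h1]
    have e : (fun x => w x * f x * (psi z' + (DZ 2 (DZ 2 (psi v)) + ((k:ℝ) ^ 2) • psi v) : SF) x)
        = fun x => w x * f x * (psi z') x
          + w x * f x * (DZ 2 (DZ 2 (psi v)) + ((k:ℝ) ^ 2) • psi v : SF) x := by
      funext x; rw [SF.add_apply]; ring
    rw [e, integral_add (i1 _) (i1 _), pair_mode hw hr k f hf, add_zero]
  have h4 : ∫ x in shell, w x * f x * (psi z) x = ∫ x in shell, w x * f x * (psi z') x := by
    rw [h2]
    have e : (fun x => w x * f x * ((1 / 2 : ℝ) • (psi z' + lc qJ qJ_ne (psi z')) : SF) x)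
        = fun x => (1 / 2) * (w x * f x * (psi z') x)
          + (1 / 2) * (w x * f x * (lc qJ qJ_ne (psi z')) x) := by
      funext x; rw [SF.smul_apply, SF.add_apply]; ring
    rw [e, integral_add ((i1 _).const_mul _) ((i1 _).const_mul _), integral_const_mul,
      integral_const_mul, pair_J (fun x => by rw [hr.mulJ, hf.mulJ])]
    ring
  rw [h3, h4]

theorem mode_psi (hM : MNFacts) (hP : PsiFacts) {k n : ℕ} {η : SF} (hη : η ∈ SNk k n) :
    Mode k (psi η) := by
  have hη1 : η ∈ UN n := hη.1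
  constructor
  · intro α x
    have e1 : lc (rot qK α) (rotK_ne α) η + lc (rot qK (-α)) (rotK_ne (-α)) η
        = (2 * Real.cos (k * α)) • η := by
      apply SF.ext'; intro x _
      rw [SF.add_apply, lc_apply, lc_apply, SF.smul_apply, hη.2.rot]
    have e2 := congrArg psi e1
    rw [hP.add n _ _ (lc_mem_UN hM _ hη1) (lc_mem_UN hM _ hη1), hP.smul n _ _ hη1,
      psi_lc hM hP _ hη1, psi_lc hM hP _ hη1] at e2
    have e3 := congrArg (fun F : SF => F x) e2
    simpa only [SF.add_apply, SF.smul_apply, lc_apply] using e3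
  · intro x
    have e1 : lc qJ qJ_ne η = η := by
      apply SF.ext'; intro x _; rw [lc_apply, hη.2.mulJ]
    have e2 := congrArg psi e1
    rw [psi_lc hM hP _ hη1] at e2
    have e3 := congrArg (fun F : SF => F x) e2
    simpa only [lc_apply] using e3

theorem mode_of (hC : CasFacts) (hM : MNFacts) (hP : PsiFacts) : ModeFacts where
  proj := by
    intro k n hk y hy
    obtain ⟨z, hz, z', hz', v, hv, hzz, hyy, hzT⟩ := decomp_mode hM hP k n hk y hy
    refine ⟨z, hz, fun w hw hr η hη => ⟨?_, ?_⟩⟩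
    · exact pair_psi hM hP hw hr hη.2 hz' hv hzz hyy
    · -- `psi η` is of mode `k`
      have hm := mode_psi hM hP hη
      have key := fun v => pair_mode hw hr k (psi η) hm v
      have c0 : ContinuousOn (fun x => w x * (psi η) x) {0}ᶜ := hw.cont.mul (psi η).continuousOn
      have i1 : ∀ G : SF, IntegrableOn (fun x => w x * (psi η) x * G x) shell := fun G =>
        integrableOn_shell (c0.mul G.continuousOn)
      have e0 : ∀ G : SF, Bil w G η = ∫ x in shell, w x * (psi η) x * G x := by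
        intro G
        simp only [Bil]
        congr 1; funext x; ring
      rw [e0, e0]
      have h3 : ∫ x in shell, w x * (psi η) x * y x = ∫ x in shell, w x * (psi η) x * z' x := by
        rw [hyy]
        have e : (fun x => w x * (psi η) x * (z' + (DZ 2 (DZ 2 v) + ((k:ℝ) ^ 2) • v) : SF) x)
            = fun x => w x * (psi η) x * z' x
              + w x * (psi η) x * (DZ 2 (DZ 2 v) + ((k:ℝ) ^ 2) • v : SF) x := by
          funext x; rw [SF.add_apply]; ring
        rw [e, integral_add (i1 _) (i1 _), key, add_zero]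
      have h4 : ∫ x in shell, w x * (psi η) x * z x = ∫ x in shell, w x * (psi η) x * z' x := by
        rw [hzz]
        have e : (fun x => w x * (psi η) x * ((1 / 2 : ℝ) • (z' + lc qJ qJ_ne z') : SF) x)
            = fun x => (1 / 2) * (w x * (psi η) x * z' x)
              + (1 / 2) * (w x * (psi η) x * (lc qJ qJ_ne z') x) := by
          funext x; rw [SF.smul_apply, SF.add_apply]; ring
        rw [e, integral_add ((i1 _).const_mul _) ((i1 _).const_mul _), integral_const_mul,
          integral_const_mul, pair_J (fun x => by rw [hr.mulJ, hm.mulJ])]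
        ring
      rw [h3, h4]
  zz := fun k y hy => zz_of_rot hy.rot
  lap_mem := by
    intro k n y hy
    refine ⟨hP.lap_mem n y hy.1, ⟨fun α x => ?_, fun x => ?_⟩⟩
    · have e1 : lc (rot qK α) (rotK_ne α) y + lc (rot qK (-α)) (rotK_ne (-α)) y
          = (2 * Real.cos (k * α)) • y := by
        apply SF.ext'; intro x _
        rw [SF.add_apply, lc_apply, lc_apply, SF.smul_apply, hy.2.rot]
      have e2 := congrArg Lap e1
      rw [map_add, map_smul, Lap_lc hC, Lap_lc hC] at e2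
      have e3 := congrArg (fun F : SF => F x) e2
      simpa only [SF.add_apply, SF.smul_apply, lc_apply] using e3
    · have e1 : lc qJ qJ_ne y = y := by
        apply SF.ext'; intro x _; rw [lc_apply, hy.2.mulJ]
      have e2 := congrArg Lap e1
      rw [Lap_lc hC] at e2
      have e3 := congrArg (fun F : SF => F x) e2
      simpa only [lc_apply] using e3
  lap_surj := by
    intro k n hk y hy
    have := finite_UN hM n
    have hle : SNk k n ≤ UN n := fun _ h => h.1
    have : Module.Finite ℝ (SNk k n) := Submodule.finiteDimensional_of_le hle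
    have hmem : ∀ F ∈ SNk k n, Lap F ∈ SNk k n := by
      intro y hy
      refine ⟨hP.lap_mem n y hy.1, ⟨fun α x => ?_, fun x => ?_⟩⟩
      · have e1 : lc (rot qK α) (rotK_ne α) y + lc (rot qK (-α)) (rotK_ne (-α)) y
            = (2 * Real.cos (k * α)) • y := by
          apply SF.ext'; intro x _
          rw [SF.add_apply, lc_apply, lc_apply, SF.smul_apply, hy.2.rot]
        have e2 := congrArg Lap e1
        rw [map_add, map_smul, Lap_lc hC, Lap_lc hC] at e2
        have e3 := congrArg (fun F : SF => F x) e2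
        simpa only [SF.add_apply, SF.smul_apply, lc_apply] using e3
      · have e1 : lc qJ qJ_ne y = y := by
          apply SF.ext'; intro x _; rw [lc_apply, hy.2.mulJ]
        have e2 := congrArg Lap e1
        rw [Lap_lc hC] at e2
        have e3 := congrArg (fun F : SF => F x) e2
        simpa only [lc_apply] using e3
    let f : SNk k n →ₗ[ℝ] SNk k n := Lap.restrict hmem
    have hf : ∀ F : SNk k n, ((f F : SNk k n) : SF) = Lap (F : SF) := fun F => rfl
    have hinj : ∀ F, f F = 0 → F = 0 := by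
      intro F hF
      have h1 : Lap (F : SF) = 0 := by rw [← hf, hF]; rfl
      have h2 : ip (Lap (F : SF)) (F : SF) = -(nrm (DZ 0 (F : SF)) ^ 2 + nrm (DZ 1 (F : SF)) ^ 2
          + nrm (DZ 2 (F : SF)) ^ 2) := by
        rw [Lap_eq, ip_add_left, ip_add_left, ip_DZ 0, ip_DZ 1, ip_DZ 2, nrm_sq', nrm_sq', nrm_sq']
        ring
      rw [h1] at h2
      have h3 : nrm (DZ 2 (F : SF)) = 0 := by
        have e : ip (0 : SF) (F : SF) = 0 := by simp [ip]
        rw [e] at h2
        have := sq_nonneg (nrm (DZ 0 (F : SF)))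
        have := sq_nonneg (nrm (DZ 1 (F : SF)))
        have : nrm (DZ 2 (F : SF)) ^ 2 = 0 := by nlinarith [sq_nonneg (nrm (DZ 2 (F : SF)))]
        simpa using this
      have h4 := eq_zero_of_nrm h3
      have h5 := zz_of_rot F.2.2.rot
      rw [h4, map_zero] at h5
      have hk0 : (k:ℝ) ^ 2 ≠ 0 := by positivity
      have h6 : (F : SF) = 0 := by
        rw [eq_comm, neg_smul, neg_eq_zero] at h5
        exact (smul_eq_zero.1 h5).resolve_left hk0
      exact Subtype.ext h6
    obtain ⟨χ, hχ⟩ := gen_surj (V := SNk k n) f hinj ⟨y, hy⟩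
    exact ⟨χ, χ.2, by rw [← hf, hχ]⟩
  ker := by
    intro k n hk w hw _ hr y hy b hbE hb hyp ψ hψ
    obtain ⟨y', hy', rfl⟩ := hP.surj n ψ hψ
    obtain ⟨z, hz, z', hz', v, hv, hzz, hyy, hzT⟩ := decomp_mode hM hP k n hk y' hy'
    have h1 := pair_psi hM hP hw hr hy.2 hz' hv hzz hyy
    have h2 := pair_psi hM hP cts_one rotInv_const hb hz' hv hzz hyy
    have h3 := hyp z hz
    have c1 : IntegrableOn (fun x => w x * y x * (psi y') x) shell :=
      integrableOn_shell ((hw.cont.mul y.continuousOn).mul (psi y').continuousOn)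
    have c2 : IntegrableOn (fun x => b x * (psi y') x) shell :=
      integrableOn_shell (b.continuousOn.mul (psi y').continuousOn)
    have e : ip (fun x => w x * y x + b x) (psi y')
        = (∫ x in shell, w x * y x * (psi y') x) + ∫ x in shell, b x * (psi y') x := by
      rw [← integral_add c1 c2, ip]
      congr 1; funext x; ring
    rw [e, h1]
    simp only [one_mul] at h2
    rw [h2]
    exact h3

end Pool.Agent.MP85963d.H46
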